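import Pool.Agent.L5helper39.SB.Main

/-!
# MP_9568c3_nt: three summands of a Sidon set near `m / 3`
-/

set_option autoImplicit false
set_option linter.all false

open Filter

namespace Pool.Agent.Results.MP_9568c3_nt.LowerBound

open Pool.Agent.L5helper39.SB

/-- every integer has at most one representation as a sum of two elements of `S` -/
def Sidon (S : Set ℕ) : Prop :=
  ∀ a ∈ S, ∀ b ∈ S, ∀ c ∈ S, ∀ d ∈ S, a + b = c + d → (a = c ∧ b = d) ∨ (a = d ∧ b = c)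

/-- `m` is a sum of three elements of `S` at distance at most `R` from `m / 3` -/
def Near (S : Set ℕ) (m : ℕ) (R : ℝ) : Prop :=
  ∃ s₁ ∈ S, ∃ s₂ ∈ S, ∃ s₃ ∈ S, s₁ + s₂ + s₃ = m ∧
    |(s₁ : ℝ) - m / 3| ≤ R ∧ |(s₂ : ℝ) - m / 3| ≤ R ∧ |(s₃ : ℝ) - m / 3| ≤ R

/-- the exponent `θ` is admissible for `S`, as in the problem -/
def AdmissibleFor (S : Set ℕ) (θ : ℝ) : Prop :=
  ∃ C : ℝ, 0 < C ∧ ∃ m₀ : ℕ, ∀ m : ℕ, m₀ ≤ m → Near S m (C * (m : ℝ) ^ θ)

theorem Near.mono {S : Set ℕ} {m : ℕ} {R R' : ℝ} (h : Near S m R) (hR : R ≤ R') : Near S m R' := by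
  obtain ⟨s₁, h₁, s₂, h₂, s₃, h₃, h, a, b, c⟩ := h
  exact ⟨s₁, h₁, s₂, h₂, s₃, h₃, h, a.trans hR, b.trans hR, c.trans hR⟩

theorem g_bound (f r n m : ℕ) (hr : r = 2 ^ (4 * f + 6)) (hn : n ≤ 4 * r) (hf : 1 ≤ f)
    (hm : m < 2 ^ (4 * n + 3)) (hm1 : 1 ≤ m) :
    ((m : ℝ) * Real.log m) ^ (3 / 4 : ℝ) / 4096 ≤ (2 : ℝ) ^ (3 * n + 3 * f - 2) := by
  have hm0 : (0 : ℝ) < m := by exact_mod_cast hm1
  have hmr : (m : ℝ) ≤ 2 ^ (4 * n + 3) := by exact_mod_cast hm.le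
  have hr1 : (1:ℝ) ≤ r := by
    rw [hr]; push_cast; exact one_le_pow₀ (by norm_num)
  have hlog : Real.log m ≤ 2 ^ (4 * f + 10) := by
    have h1 : Real.log m ≤ Real.log (2 ^ (4 * n + 3)) := Real.log_le_log hm0 hmr
    rw [Real.log_pow] at h1
    have h2 := Real.log_two_lt_d9
    have h3 : ((4 * n + 3 : ℕ) : ℝ) ≤ 16 * r + 3 := by
      have : (n : ℝ) ≤ 4 * r := by exact_mod_cast hn
      push_cast; linarith
    have h4 : Real.log 2 > 0 := Real.log_pos (by norm_num)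
    have h5 : ((4 * n + 3 : ℕ) : ℝ) * Real.log 2 ≤ (16 * r + 3) * 0.6931471808 := by
      apply mul_le_mul h3 h2.le h4.le
      positivity
    have h6 : ((2:ℝ) ^ (4 * f + 10)) = 16 * r := by
      rw [hr]; push_cast; rw [pow_add, pow_add]; ring
    rw [h6]
    nlinarith
  have hlog0 : 0 ≤ Real.log m := Real.log_nonneg (by exact_mod_cast hm1)
  have h1 : (m : ℝ) * Real.log m ≤ (2 : ℝ) ^ (4 * n + 4 * f + 13) := by
    calc (m : ℝ) * Real.log m ≤ 2 ^ (4 * n + 3) * 2 ^ (4 * f + 10) :=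
          mul_le_mul hmr hlog hlog0 (by positivity)
      _ = _ := by rw [← pow_add]; congr 1; ring
  have h2 : ((m : ℝ) * Real.log m) ^ (3 / 4 : ℝ) ≤ ((2 : ℝ) ^ (4 * n + 4 * f + 13)) ^ (3 / 4 : ℝ) :=
    Real.rpow_le_rpow (mul_nonneg hm0.le hlog0) h1 (by norm_num)
  have h3 : ((2 : ℝ) ^ (4 * n + 4 * f + 13)) ^ (3 / 4 : ℝ) ≤ (2 : ℝ) ^ (3 * n + 3 * f + 10) := by
    rw [← Real.rpow_natCast, ← Real.rpow_natCast, ← Real.rpow_mul (by norm_num)]
    apply Real.rpow_le_rpow_of_exponent_le (by norm_num)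
    push_cast
    linarith
  have h4 : (2 : ℝ) ^ (3 * n + 3 * f + 10) = 2 ^ (3 * n + 3 * f - 2) * 4096 := by
    have : (4096 : ℝ) = 2 ^ 12 := by norm_num
    rw [this, ← pow_add]
    congr 1
    omega
  rw [div_le_iff₀ (by norm_num), ← h4]
  exact h2.trans h3

theorem main (S : Set ℕ) (hS : Sidon S) (m₀ : ℕ) :
    ∃ m : ℕ, m₀ ≤ m ∧ ¬ Near S m (((m : ℝ) * Real.log m) ^ (3 / 4 : ℝ) / 4096) := by
  by_contra hcon
  push Not at hcon
  let f : ℕ := m₀ + 1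
  obtain ⟨f, hf1, hfm⟩ : ∃ f : ℕ, 1 ≤ f ∧ m₀ ≤ f := ⟨m₀ + 1, by omega, by omega⟩
  obtain ⟨r, hr⟩ : ∃ r : ℕ, r = 2 ^ (4 * f + 6) := ⟨_, rfl⟩
  have hrf : 2 * f ≤ r := by
    have h1 : 4 * f + 6 < 2 ^ (4 * f + 6) := Nat.lt_two_pow_self
    omega
  have hwin : ∀ n, 3 * r ≤ n → n + f ≤ 4 * r → ∀ i < 2 ^ (n - 3 * f),
      2 ^ (n + f - 1) ≤ (E S (16 ^ n + i * 2 ^ (3 * n + 3 * f))
        (16 ^ n + (i + 1) * 2 ^ (3 * n + 3 * f))).card := by
    intro n hn1 hn2 i hi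
    have hn3f : 3 * f ≤ n := by omega
    set w : ℕ := 2 ^ (3 * n + 3 * f) with hw
    have hw8 : w = 8 * 2 ^ (3 * n + 3 * f - 3) := by
      rw [hw, show (8:ℕ) = 2 ^ 3 by norm_num, ← pow_add]
      congr 1; omega
    obtain ⟨v, hv⟩ : ∃ v : ℕ, v = 2 ^ (3 * n + 3 * f - 3) := ⟨_, rfl⟩
    rw [← hv] at hw8
    have hi16 : (i + 1) * w ≤ 16 ^ n := by
      calc (i + 1) * w ≤ 2 ^ (n - 3 * f) * w := Nat.mul_le_mul_right _ hi
        _ = 2 ^ (4 * n) := by rw [hw, ← pow_add]; congr 1; omega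
        _ = 16 ^ n := by rw [pow_mul]; norm_num
    have hwin' := window S (16 ^ n + i * w + 4 * v) (4 * v) (n + f - 1) (by
      intro m hm1 hm2
      have e1 : (2 ^ (n + f - 1)) ^ 3 = v := by
        rw [hv, ← pow_mul]; congr 1; omega
      rw [e1] at hm2
      have h16 : 16 ^ n = 2 ^ (4 * n) := by rw [pow_mul]; norm_num
      have hnpow : n < 16 ^ n := by
        have : n < 2 ^ n := Nat.lt_two_pow_self
        exact this.trans_le (Nat.pow_le_pow_left (by norm_num) n)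
      have hmlt : m < 2 ^ (4 * n + 3) := by
        rw [pow_add, ← h16]
        rw [add_mul, one_mul] at hi16
        omega
      have hmm : m₀ ≤ m := by omega
      have hg := g_bound f r n m hr (by omega) hf1 hmlt (by omega)
      have hg' : (2 : ℝ) ^ (3 * n + 3 * f - 2) = 2 * v := by
        rw [hv]; push_cast; rw [← pow_succ']; congr 1; omega
      rw [hg'] at hg
      obtain ⟨s₁, h₁, s₂, h₂, s₃, h₃, hs, a, b, c⟩ := (hcon m hmm).mono hg
      have hv0 : (0:ℝ) < v := by rw [hv]; positivity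
      have hm1' : (3:ℝ) * (16 ^ n + i * w + 4 * v) ≤ m := by exact_mod_cast hm1
      have hm2' : (m:ℝ) < 3 * (16 ^ n + i * w + 4 * v) + v := by exact_mod_cast hm2
      have key : ∀ s : ℕ, s ∈ S → |(s : ℝ) - m / 3| ≤ 2 * v →
          s ∈ E S (16 ^ n + i * w + 4 * v - 4 * v) (16 ^ n + i * w + 4 * v + 4 * v) := by
        intro s hs hsm
        rw [abs_le] at hsm
        rw [mem_E]
        refine ⟨⟨?_, ?_⟩, hs⟩
        · rw [Nat.add_sub_cancel]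
          have : ((16 ^ n + i * w : ℕ) : ℝ) ≤ s := by
            push_cast
            linarith [hsm.1]
          exact_mod_cast this
        · have : (s : ℝ) < ((16 ^ n + i * w + 4 * v + 4 * v : ℕ) : ℝ) := by
            push_cast
            linarith [hsm.2]
          exact_mod_cast this
      exact ⟨s₁, key s₁ h₁ a, s₂, key s₂ h₂ b, s₃, key s₃ h₃ c, hs⟩)
    rw [Nat.add_sub_cancel, show 16 ^ n + i * w + 4 * v + 4 * v = 16 ^ n + (i + 1) * w by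
      rw [add_mul]; omega] at hwin'
    exact hwin'
  -- the large windows
  have hbig : ∀ n ∈ Finset.Icc (3 * r) (4 * r - f), ∀ l < 2 ^ (4 * n - 12 * r),
      2 ^ (12 * r - 2 * n - 2 * f - 1) ≤
        (E S (16 ^ n + l * 2 ^ (12 * r)) (16 ^ n + (l + 1) * 2 ^ (12 * r))).card := by
    intro n hn l hl
    rw [Finset.mem_Icc] at hn
    have hq : 2 ^ (12 * r) = 2 ^ (12 * r - 3 * n - 3 * f) * 2 ^ (3 * n + 3 * f) := by
      rw [← pow_add]; congr 1; omega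
    have := E_stack S (16 ^ n + l * 2 ^ (12 * r)) (2 ^ (3 * n + 3 * f)) (2 ^ (n + f - 1))
      (2 ^ (12 * r - 3 * n - 3 * f)) (by
        intro j hj
        have hi : l * 2 ^ (12 * r - 3 * n - 3 * f) + j < 2 ^ (n - 3 * f) := by
          calc l * 2 ^ (12 * r - 3 * n - 3 * f) + j
              < l * 2 ^ (12 * r - 3 * n - 3 * f) + 2 ^ (12 * r - 3 * n - 3 * f) := by omega
            _ = (l + 1) * 2 ^ (12 * r - 3 * n - 3 * f) := by ring
            _ ≤ 2 ^ (4 * n - 12 * r) * 2 ^ (12 * r - 3 * n - 3 * f) := Nat.mul_le_mul_right _ hl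
            _ = 2 ^ (n - 3 * f) := by rw [← pow_add]; congr 1; omega
        have h := hwin n hn.1 (by omega) _ hi
        have e1 : 16 ^ n + (l * 2 ^ (12 * r - 3 * n - 3 * f) + j) * 2 ^ (3 * n + 3 * f) =
            16 ^ n + l * 2 ^ (12 * r) + j * 2 ^ (3 * n + 3 * f) := by
          rw [hq]; ring
        have e2 : 16 ^ n + (l * 2 ^ (12 * r - 3 * n - 3 * f) + j + 1) * 2 ^ (3 * n + 3 * f) =
            16 ^ n + l * 2 ^ (12 * r) + (j + 1) * 2 ^ (3 * n + 3 * f) := by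
          rw [hq]; ring
        rw [e1, e2] at h
        exact h)
    have e3 : 16 ^ n + l * 2 ^ (12 * r) + 2 ^ (12 * r - 3 * n - 3 * f) * 2 ^ (3 * n + 3 * f) =
        16 ^ n + (l + 1) * 2 ^ (12 * r) := by
      rw [← hq]; ring
    rw [e3] at this
    refine le_trans (le_of_eq ?_) this
    rw [← pow_add]; congr 1; omega
  have hp := pairs S hS (12 * r) (Finset.Icc (3 * r) (4 * r - f))
    (fun n hn => by rw [Finset.mem_Icc] at hn; omega)
    (fun n => 2 ^ (12 * r - 2 * n - 2 * f - 1))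
    (fun n hn => by
      rw [Finset.mem_Icc] at hn
      calc 2 = 2 ^ 1 := by norm_num
        _ ≤ _ := Nat.pow_le_pow_right (by norm_num) (by omega)) hbig
  have hterm : ∀ n ∈ Finset.Icc (3 * r) (4 * r - f), 2 ^ (12 * r - 4 * f - 3) ≤
      2 ^ (4 * n - 12 * r) * (2 ^ (12 * r - 2 * n - 2 * f - 1) * 2 ^ (12 * r - 2 * n - 2 * f - 1) -
        2 ^ (12 * r - 2 * n - 2 * f - 1)) := by
    intro n hn
    rw [Finset.mem_Icc] at hn
    obtain ⟨s, hs⟩ : ∃ s : ℕ, 12 * r - 2 * n - 2 * f - 1 = s + 1 := ⟨12 * r - 2 * n - 2 * f - 2, by omega⟩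
    rw [hs]
    have e1 : 2 ^ (2 * s + 1) ≤ 2 ^ (s + 1) * 2 ^ (s + 1) - 2 ^ (s + 1) := by
      have : 2 ^ (s + 1) * 2 ^ (s + 1) = 2 ^ (2 * s + 1) + 2 ^ (2 * s + 1) := by ring
      have h2 : 2 ^ (s + 1) ≤ 2 ^ (2 * s + 1) := Nat.pow_le_pow_right (by norm_num) (by omega)
      omega
    calc 2 ^ (12 * r - 4 * f - 3) = 2 ^ (4 * n - 12 * r) * 2 ^ (2 * s + 1) := by
          rw [← pow_add]; congr 1; omega
      _ ≤ _ := Nat.mul_le_mul_left _ e1
  have hsum := (Finset.card_nsmul_le_sum _ _ _ hterm).trans hp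
  rw [Nat.card_Icc, smul_eq_mul] at hsum
  have hN : 2 ^ (4 * f + 5) ≤ 4 * r - f + 1 - 3 * r := by
    have : r = 2 * 2 ^ (4 * f + 5) := by rw [hr]; ring
    have h1 : 4 * f + 5 < 2 ^ (4 * f + 5) := Nat.lt_two_pow_self
    omega
  have h2 : 2 ^ (4 * f + 5) * 2 ^ (12 * r - 4 * f - 3) ≤ 2 ^ (12 * r + 1) :=
    (Nat.mul_le_mul_right _ hN).trans hsum
  rw [← pow_add] at h2
  have h3 := (Nat.pow_le_pow_iff_right (by norm_num)).1 h2
  omega

/-- an explicit constant -/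
theorem infinitely_many (S : Set ℕ) (hS : Sidon S) :
    ∃ᶠ m : ℕ in atTop, ¬ Near S m (((m : ℝ) * Real.log m) ^ (3 / 4 : ℝ) / 4096) := by
  rw [frequently_atTop]
  intro a
  obtain ⟨m, hm, h⟩ := main S hS a
  exact ⟨m, hm, h⟩

/-- density version with a constant depending only on the density -/
theorem dens (δ : ℝ) (hδ : 0 < δ) : ∃ c : ℝ, 0 < c ∧ ∀ S : Set ℕ, Sidon S →
    ∃ᶠ x : ℕ in atTop,
      ({m : ℕ | m < x ∧ Near S m (c * ((m : ℝ) * Real.log m) ^ (3 / 4 : ℝ))}.ncard : ℝ) ≤ δ * x := by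
  obtain ⟨e, he⟩ := exists_pow_lt_of_lt_one hδ (show (1 / 2 : ℝ) < 1 by norm_num)
  refine ⟨1 / 2 ^ (7 * e + 23), by positivity, fun S hS => ?_⟩
  rw [frequently_atTop]
  intro a
  obtain ⟨x, hx, h⟩ := density e S hS a
  refine ⟨x, hx, ?_⟩
  have e1 : {m : ℕ | m < x ∧ Near S m (1 / 2 ^ (7 * e + 23) * ((m : ℝ) * Real.log m) ^ (3 / 4 : ℝ))} =
      {m : ℕ | m < x ∧ NearR S m (((m : ℝ) * Real.log m) ^ (3 / 4 : ℝ) / 2 ^ (7 * e + 23))} := by
    ext m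
    have : (1 / 2 ^ (7 * e + 23) * ((m : ℝ) * Real.log m) ^ (3 / 4 : ℝ)) =
      ((m : ℝ) * Real.log m) ^ (3 / 4 : ℝ) / 2 ^ (7 * e + 23) := by ring
    simp only [Set.mem_setOf_eq, this]
    rfl
  rw [e1]
  refine h.trans ?_
  have h2 : (x : ℝ) / 2 ^ e = (1 / 2) ^ e * x := by
    rw [one_div, inv_pow]; ring
  rw [h2]
  exact mul_le_mul_of_nonneg_right he.le (by positivity)

/-- radii of smaller order: lower density zero -/
theorem little (S : Set ℕ) (hS : Sidon S) (R : ℕ → ℝ)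
    (hR : R =o[atTop] (fun m : ℕ => ((m : ℝ) * Real.log m) ^ (3 / 4 : ℝ))) (δ : ℝ) (hδ : 0 < δ) :
    ∃ᶠ x : ℕ in atTop, ({m : ℕ | m < x ∧ Near S m (R m)}.ncard : ℝ) ≤ δ * x := by
  obtain ⟨c, hc, h⟩ := dens (δ / 2) (by positivity)
  have h1 := hR.bound hc
  rw [eventually_atTop] at h1
  obtain ⟨M, hM⟩ := h1
  obtain ⟨B, hB⟩ := exists_nat_gt (((M : ℝ) + 1) / (δ / 2))
  refine ((h S hS).and_eventually (eventually_ge_atTop (max 1 B))).mono ?_
  rintro x ⟨hx, hxB⟩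
  have hsub : {m : ℕ | m < x ∧ Near S m (R m)} ⊆
      ((Finset.range (M + 1) : Finset ℕ) : Set ℕ) ∪
      {m : ℕ | m < x ∧ Near S m (c * ((m : ℝ) * Real.log m) ^ (3 / 4 : ℝ))} := by
    intro m hm
    by_cases hlt : m < M + 1
    · left; simpa using hlt
    · right
      refine ⟨hm.1, hm.2.mono ?_⟩
      have h2 := hM m (by omega)
      have hm1 : (1 : ℝ) ≤ m := by
        have : 1 ≤ m := by omega
        exact_mod_cast this
      have h3 : 0 ≤ ((m : ℝ) * Real.log m) ^ (3 / 4 : ℝ) :=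
        Real.rpow_nonneg (mul_nonneg (by linarith) (Real.log_nonneg hm1)) _
      rw [Real.norm_of_nonneg h3] at h2
      exact (le_abs_self _).trans h2
  have hfin : (((Finset.range (M + 1) : Finset ℕ) : Set ℕ) ∪
      {m : ℕ | m < x ∧ Near S m (c * ((m : ℝ) * Real.log m) ^ (3 / 4 : ℝ))}).Finite :=
    (Finset.finite_toSet _).union ((Set.finite_lt_nat x).subset fun m hm => hm.1)
  have h4 := (Set.ncard_le_ncard hsub hfin).trans (Set.ncard_union_le _ _)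
  rw [Set.ncard_coe_finset, Finset.card_range] at h4
  have h5 : ({m : ℕ | m < x ∧ Near S m (R m)}.ncard : ℝ) ≤ (M + 1) +
      ({m : ℕ | m < x ∧ Near S m (c * ((m : ℝ) * Real.log m) ^ (3 / 4 : ℝ))}.ncard : ℝ) := by
    exact_mod_cast h4
  have hxB' : (B : ℝ) ≤ x := by exact_mod_cast (le_max_right _ _).trans hxB
  have h6 : (M : ℝ) + 1 < δ / 2 * x := by
    rw [div_lt_iff₀ (by positivity)] at hB
    have : (B : ℝ) * (δ / 2) ≤ x * (δ / 2) := mul_le_mul_of_nonneg_right hxB' (by positivity)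
    linarith
  linarith

/-- Sums of three elements of a Sidon set near `m / 3`. -/
theorem result :
    (∀ δ : ℝ, 0 < δ → ∃ c : ℝ, 0 < c ∧ ∀ S : Set ℕ, Sidon S → ∃ᶠ x : ℕ in atTop,
      ({m : ℕ | m < x ∧ Near S m (c * ((m : ℝ) * Real.log m) ^ (3 / 4 : ℝ))}.ncard : ℝ) ≤ δ * x) ∧
    (∀ S : Set ℕ, Sidon S → ∀ R : ℕ → ℝ,
      R =o[atTop] (fun m : ℕ => ((m : ℝ) * Real.log m) ^ (3 / 4 : ℝ)) → ∀ δ : ℝ, 0 < δ →
      ∃ᶠ x : ℕ in atTop, ({m : ℕ | m < x ∧ Near S m (R m)}.ncard : ℝ) ≤ δ * x) ∧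
    (∀ S : Set ℕ, Sidon S →
      ∃ᶠ m : ℕ in atTop, ¬ Near S m (((m : ℝ) * Real.log m) ^ (3 / 4 : ℝ) / 4096)) ∧
    (∀ S : Set ℕ, Sidon S → ∀ θ : ℝ, AdmissibleFor S θ → 3 / 4 < θ) := by
  refine ⟨dens, little, infinitely_many, ?_⟩
  intro S hS
  rintro θ ⟨C, hC, m₀, h⟩
  by_contra hθ
  rw [not_lt] at hθ
  have hlog : Tendsto (fun m : ℕ => (Real.log m) ^ (3 / 4 : ℝ)) atTop atTop :=
    (tendsto_rpow_atTop (by norm_num)).comp (Real.tendsto_log_atTop.comp tendsto_natCast_atTop_atTop)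
  have hev := (hlog.eventually_ge_atTop (4096 * C)).and (eventually_ge_atTop (max m₀ 1))
  obtain ⟨m, hm, hm1, hm2⟩ := ((infinitely_many S hS).and_eventually hev).exists
  apply hm
  refine (h m ((le_max_left _ _).trans hm2)).mono ?_
  have hm3 : (1 : ℝ) ≤ m := by exact_mod_cast (le_max_right _ _).trans hm2
  have h2 : (m : ℝ) ^ θ ≤ (m : ℝ) ^ (3 / 4 : ℝ) := Real.rpow_le_rpow_of_exponent_le hm3 hθ
  rw [Real.mul_rpow (by linarith) (Real.log_nonneg hm3), le_div_iff₀ (by norm_num)]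
  have h3 : (0 : ℝ) < (m : ℝ) ^ (3 / 4 : ℝ) := Real.rpow_pos_of_pos (by linarith) _
  calc C * (m : ℝ) ^ θ * 4096 ≤ C * (m : ℝ) ^ (3 / 4 : ℝ) * 4096 := by
        have := mul_le_mul_of_nonneg_left h2 hC.le
        linarith
    _ = (m : ℝ) ^ (3 / 4 : ℝ) * (4096 * C) := by ring
    _ ≤ _ := mul_le_mul_of_nonneg_left hm1 h3.le

end Pool.Agent.Results.MP_9568c3_nt.LowerBound
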